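import Pool.Agent.R921.TC.Main

/-!
# The maximum degree of the counterexample graphs
-/

namespace R921.TC

variable {n : ℕ}

open Finset

/-- The injection of the neighbours of a vertex of the large side. -/
def psi (hn : 6 ≤ n) (a : Fin (n + 1)) : VV n → Option (Fin n)
  | (_, true) => none
  | (.inr j, false) => some j
  | (.inl b, false) =>
    if h : a.val = 0 ∧ b.val ≤ 3 then some ⟨b.val - 1, by omega⟩
    else if h' : a.val ≤ 3 then some ⟨a.val + 2, by omega⟩ else none

theorem deg_inl [DecidableRel (GG n).Adj] (hn : 6 ≤ n) (a : Fin (n + 1)) :
    (GG n).degree (.inl a, false) ≤ n + 1 := by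
  rw [← SimpleGraph.card_neighborFinset_eq_degree]
  have h := Finset.card_le_card_of_injOn (s := (GG n).neighborFinset (.inl a, false))
    (t := (univ : Finset (Option (Fin n)))) (psi hn a) (fun _ _ => mem_coe.mpr (mem_univ _)) ?_
  · rwa [Finset.card_univ, Fintype.card_option, Fintype.card_fin] at h
  · intro p hp q hq hpq
    rw [mem_coe, SimpleGraph.mem_neighborFinset] at hp hq
    rcases p with ⟨u, s⟩
    rcases q with ⟨v, t⟩
    rcases hp with ⟨_, hp2, hp3⟩ | ⟨hp1, hp2⟩ <;> rcases hq with ⟨_, hq2, hq3⟩ | ⟨hq1, hq2⟩
    · change s = false at hp2
      change t = false at hq2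
      subst hp2 hq2
      change coreAdj (.inl a) u at hp3
      change coreAdj (.inl a) v at hq3
      have key : ∀ (b : Fin (n + 1)) (j : Fin n), coreAdj (.inl a) (.inl b) →
          coreAdj (.inl a) (.inr j) →
          psi hn a (.inl b, false) ≠ psi hn a (.inr j, false) := by
        intro b j h1 h2 h3
        simp only [psi] at h3
        simp only [coreAdj] at h1 h2
        by_cases hc : a.val = 0 ∧ b.val ≤ 3
        · rw [dif_pos hc] at h3
          have h4 := congrArg Fin.val (Option.some.inj h3)
          simp only at h4
          apply h2
          unfold miss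
          rw [if_pos (by omega)]
          exact hc.1.symm
        · rw [dif_neg hc] at h3
          have ha3 : a.val ≤ 3 := by omega
          rw [dif_pos ha3] at h3
          have h4 := congrArg Fin.val (Option.some.inj h3)
          simp only at h4
          apply h2
          unfold miss
          rw [if_neg (by omega), if_pos (by omega)]
          omega
      rcases u with b | j <;> rcases v with b' | j'
      · simp only [psi] at hpq
        simp only [coreAdj] at hp3 hq3
        have : b = b' := by
          apply Fin.ext
          by_cases hc : a.val = 0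
          · rw [dif_pos ⟨hc, by omega⟩, dif_pos ⟨hc, by omega⟩] at hpq
            have h4 := congrArg Fin.val (Option.some.inj hpq)
            simp only at h4
            omega
          · omega
        rw [this]
      · exact absurd hpq (key b j' hp3 hq3)
      · exact absurd hpq.symm (key b' j hq3 hp3)
      · simp only [psi] at hpq
        rw [Option.some.inj hpq]
    · change s = false at hp2
      subst hp2
      change false ≠ t at hq2
      have ht : t = true := by cases t <;> simp_all
      subst ht
      change coreAdj (.inl a) u at hp3
      rcases u with b | j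
      · simp only [psi] at hpq
        simp only [coreAdj] at hp3
        by_cases hc : a.val = 0 ∧ b.val ≤ 3
        · rw [dif_pos hc] at hpq
          exact absurd hpq (by simp)
        · rw [dif_neg hc, dif_pos (by omega)] at hpq
          exact absurd hpq (by simp)
      · simp only [psi] at hpq
        exact absurd hpq (by simp)
    · change t = false at hq2
      subst hq2
      change false ≠ s at hp2
      have hs : s = true := by cases s <;> simp_all
      subst hs
      change coreAdj (.inl a) v at hq3
      rcases v with b | j
      · simp only [psi] at hpq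
        simp only [coreAdj] at hq3
        by_cases hc : a.val = 0 ∧ b.val ≤ 3
        · rw [dif_pos hc] at hpq
          exact absurd hpq (by simp)
        · rw [dif_neg hc, dif_pos (by omega)] at hpq
          exact absurd hpq (by simp)
      · simp only [psi] at hpq
        exact absurd hpq (by simp)
    · change false ≠ s at hp2
      change false ≠ t at hq2
      change Sum.inl a = u at hp1
      change Sum.inl a = v at hq1
      subst hp1 hq1
      cases s <;> cases t <;> simp_all

theorem missF_lt (j : Fin n) : miss j < n + 1 := by
  unfold miss
  have := j.2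
  split_ifs <;> omega

theorem nbr_inr [DecidableRel (GG n).Adj] (j : Fin n) :
    (GG n).neighborFinset (.inr j, false) =
      insert ((.inr j, true) : VV n) (((univ : Finset (Fin (n + 1))).erase
        ⟨miss j, missF_lt j⟩).map ⟨fun a => ((.inl a, false) : VV n), fun _ _ h =>
          Sum.inl.inj (congrArg Prod.fst h)⟩) := by
  ext ⟨u, s⟩
  rw [SimpleGraph.mem_neighborFinset, mem_insert, mem_map]
  constructor
  · rintro (⟨_, h2, h3⟩ | ⟨h1, h2⟩)
    · right
      change s = false at h2
      subst h2
      rcases u with a | i
      · refine ⟨a, mem_erase.mpr ⟨fun h => ?_, mem_univ _⟩, rfl⟩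
        exact h3 (congrArg Fin.val h).symm
      · exact absurd h3 id
    · left
      change Sum.inr j = u at h1
      change false ≠ s at h2
      subst h1
      cases s <;> simp_all
  · rintro (h | ⟨a, ha, h⟩)
    · rw [h]
      exact Or.inr ⟨rfl, Bool.false_ne_true⟩
    · rw [← h]
      refine Or.inl ⟨rfl, rfl, ?_⟩
      intro h'
      exact (mem_erase.mp ha).1 (Fin.ext h'.symm)

theorem deg_inr [DecidableRel (GG n).Adj] (j : Fin n) :
    (GG n).degree (.inr j, false) = n + 1 := by
  rw [← SimpleGraph.card_neighborFinset_eq_degree, nbr_inr, card_insert_of_notMem, card_map,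
    card_erase_of_mem (mem_univ _), card_univ, Fintype.card_fin]
  · rfl
  · rw [mem_map]
    rintro ⟨a, _, h⟩
    exact absurd (congrArg Prod.snd h) Bool.false_ne_true

theorem deg_true [DecidableRel (GG n).Adj] (u : Fin (n + 1) ⊕ Fin n) :
    (GG n).degree (u, true) ≤ 1 := by
  rw [← SimpleGraph.card_neighborFinset_eq_degree]
  have : (GG n).neighborFinset (u, true) ⊆ {((u, false) : VV n)} := by
    rintro ⟨v, t⟩ h
    rw [SimpleGraph.mem_neighborFinset] at h
    rcases h with ⟨h1, _⟩ | ⟨h1, h2⟩
    · exact absurd h1.symm Bool.false_ne_true
    · change u = v at h1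
      change true ≠ t at h2
      subst h1
      rw [mem_singleton]
      cases t <;> simp_all
  exact (card_le_card this).trans (card_singleton _).le

theorem maxDeg [DecidableRel (GG n).Adj] (hn : 6 ≤ n) : (GG n).maxDegree = n + 1 := by
  apply le_antisymm
  · apply SimpleGraph.maxDegree_le_of_forall_degree_le
    rintro ⟨u, s⟩
    cases s
    · rcases u with a | j
      · exact deg_inl hn a
      · exact (deg_inr j).le
    · exact (deg_true u).trans (by omega)
  · exact (deg_inr (n := n) ⟨0, by omega⟩).symm.le.trans (SimpleGraph.degree_le_maxDegree _ _)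

/-- The counterexample. -/
theorem main (D : ℕ) (hD : 7 ≤ D) :
    ∃ (V : Type) (_ : Fintype V) (G : SimpleGraph V) (_ : DecidableRel G.Adj)
      (H : G.Subgraph) (f₀ : V → Fin (D + 3)) (g₀ : Sym2 V → Fin (D + 3)),
      G.maxDegree = D ∧ H.IsMatching ∧ TotalColoringOn G H f₀ g₀ ∧ ¬ Extends G H f₀ g₀ := by
  obtain ⟨n, rfl⟩ : ∃ n, D = n + 1 := ⟨D - 1, by omega⟩
  classical
  exact ⟨VV n, inferInstance, GG n, inferInstance, HH n, ff n, gg n, maxDeg (by omega),
    HH_matching, precol, no_ext (by omega)⟩

end R921.TC
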