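import Mathlib

/-!
# Precoloured matchings which do not extend with `Δ + 3` colours
-/

namespace R921.TC

/-- `f` (on vertices) and `g` (on edges), restricted to the subgraph `H` of `G`, form a total
colouring of `H` in `G`: vertices of `H` adjacent in `G` get different colours, distinct edges of
`H` with a common endpoint get different colours, and every edge of `H` gets a colour different
from the colours of both of its endpoints. -/
def TotalColoringOn {V : Type} (G : SimpleGraph V) (H : G.Subgraph) {k : ℕ} (f : V → Fin k)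
    (g : Sym2 V → Fin k) : Prop :=
  (∀ u ∈ H.verts, ∀ v ∈ H.verts, G.Adj u v → f u ≠ f v) ∧
  (∀ e ∈ H.edgeSet, ∀ e' ∈ H.edgeSet, e ≠ e' → (∃ v, v ∈ e ∧ v ∈ e') → g e ≠ g e') ∧
  (∀ e ∈ H.edgeSet, ∀ v ∈ e, g e ≠ f v)

/-- The total colouring of `H` given by `f₀`, `g₀` extends to a total colouring of `G` with the same
set `Fin k` of colours. -/
def Extends {V : Type} (G : SimpleGraph V) (H : G.Subgraph) {k : ℕ} (f₀ : V → Fin k)
    (g₀ : Sym2 V → Fin k) : Prop :=
  ∃ (f : V → Fin k) (g : Sym2 V → Fin k), TotalColoringOn G ⊤ f g ∧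
    (∀ v ∈ H.verts, f v = f₀ v) ∧ ∀ e ∈ H.edgeSet, g e = g₀ e

variable {n : ℕ}

/-- The vertex of the large side missed by the vertex `j` of the small side. -/
def miss (j : Fin n) : ℕ := if j.val < 3 then 0 else if j.val < 6 then j.val - 2 else 0

/-- Adjacency in the core. -/
def coreAdj : Fin (n + 1) ⊕ Fin n → Fin (n + 1) ⊕ Fin n → Prop
  | .inl a, .inl b => (a.val = 0 ∧ 1 ≤ b.val ∧ b.val ≤ 3) ∨ (b.val = 0 ∧ 1 ≤ a.val ∧ a.val ≤ 3)
  | .inl a, .inr j => miss j ≠ a.val
  | .inr j, .inl a => miss j ≠ a.val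
  | .inr _, .inr _ => False

theorem coreAdj_symm {u v : Fin (n + 1) ⊕ Fin n} (h : coreAdj u v) : coreAdj v u := by
  rcases u with a | j <;> rcases v with b | i
  · exact h.symm
  · exact h
  · exact h
  · exact h

theorem coreAdj_irrefl (u : Fin (n + 1) ⊕ Fin n) : ¬ coreAdj u u := by
  rcases u with a | j
  · intro h
    rcases h with h | h <;> omega
  · exact fun h => h

/-- The vertex type: a core vertex and a pendant vertex for each element. -/
abbrev VV (n : ℕ) : Type := (Fin (n + 1) ⊕ Fin n) × Bool

/-- The graph: the core with a pendant edge at every vertex. -/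
def GG (n : ℕ) : SimpleGraph (VV n) where
  Adj p q := (p.2 = false ∧ q.2 = false ∧ coreAdj p.1 q.1) ∨ (p.1 = q.1 ∧ p.2 ≠ q.2)
  symm := ⟨by
    rintro p q (⟨h1, h2, h3⟩ | ⟨h1, h2⟩)
    · exact Or.inl ⟨h2, h1, coreAdj_symm h3⟩
    · exact Or.inr ⟨h1.symm, h2.symm⟩⟩
  loopless := ⟨by
    rintro p (⟨_, _, h3⟩ | ⟨_, h2⟩)
    · exact coreAdj_irrefl _ h3
    · exact h2 rfl⟩

/-- The matching of all pendant edges. -/
def HH (n : ℕ) : (GG n).Subgraph where
  verts := Set.univ
  Adj p q := p.1 = q.1 ∧ p.2 ≠ q.2
  adj_sub h := Or.inr h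
  edge_vert _ := Set.mem_univ _
  symm := ⟨fun _ _ h => ⟨h.1.symm, h.2.symm⟩⟩

theorem HH_matching : (HH n).IsMatching := by
  intro p _
  refine ⟨(p.1, !p.2), ⟨rfl, ?_⟩, ?_⟩
  · change p.2 ≠ !p.2
    cases p.2 <;> decide
  · rintro ⟨q1, q2⟩ ⟨h1, h2⟩
    refine Prod.ext h1.symm ?_
    change q2 = !p.2
    have h3 : p.2 ≠ q2 := h2
    revert h3
    cases p.2 <;> cases q2 <;> decide

/-- The colours of the vertices of the matching. -/
def fc : VV n → ℕ
  | (.inl a, false) => if a.val = 0 then 0 else 1
  | (.inr _, false) => 2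
  | (.inl _, true) => 2
  | (.inr _, true) => 0

/-- The colours of the pendant edges. -/
def mc : Fin (n + 1) ⊕ Fin n → ℕ
  | .inl a => if a.val = 0 then 1 else 0
  | .inr _ => 3

theorem fc_lt (p : VV n) : fc p < n + 4 := by
  rcases p with ⟨a | j, b⟩ <;> cases b <;> simp only [fc]
  · split_ifs <;> omega
  · omega
  · omega
  · omega

theorem mc_lt (p : Fin (n + 1) ⊕ Fin n) : mc p < n + 4 := by
  rcases p with a | j <;> simp only [mc]
  · split_ifs <;> omega
  · omega

/-- The precolouring of vertices. -/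
def ff (n : ℕ) (p : VV n) : Fin (n + 4) := ⟨fc p, fc_lt p⟩

/-- The colour of a pendant edge. -/
def mm (p : Fin (n + 1) ⊕ Fin n) : Fin (n + 4) := ⟨mc p, mc_lt p⟩

/-- The precolouring of edges. -/
def gg (n : ℕ) : Sym2 (VV n) → Fin (n + 4) :=
  Sym2.lift ⟨fun p q => max (mm p.1) (mm q.1), fun _ _ => max_comm _ _⟩

theorem gg_pendant (u : Fin (n + 1) ⊕ Fin n) (s t : Bool) : gg n s((u, s), (u, t)) = mm u := by
  unfold gg
  rw [Sym2.lift_mk]
  exact max_self _

theorem precol : TotalColoringOn (GG n) (HH n) (ff n) (gg n) := by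
  refine ⟨?_, ?_, ?_⟩
  · rintro ⟨u, s⟩ _ ⟨v, t⟩ _ h heq
    have heq' : fc (u, s) = fc (v, t) := congrArg Fin.val heq
    rcases h with ⟨h1, h2, h3⟩ | ⟨h1, h2⟩
    · change s = false at h1
      change t = false at h2
      subst h1 h2
      rcases u with a | j <;> rcases v with b | i
      · simp only [fc] at heq'
        simp only [coreAdj] at h3
        split_ifs at heq' <;> omega
      · simp only [fc] at heq'
        split_ifs at heq' <;> omega
      · simp only [fc] at heq'
        split_ifs at heq' <;> omega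
      · exact h3
    · change u = v at h1
      change s ≠ t at h2
      subst h1
      rcases u with a | j <;> cases s <;> cases t <;> simp only [fc] at heq' <;>
        first
        | exact h2 rfl
        | omega
        | (split_ifs at heq' <;> omega)
  · intro e he e' he' hne hv
    exfalso
    apply hne
    obtain ⟨v, hv, hv'⟩ := hv
    obtain ⟨w, rfl⟩ := Sym2.mem_iff_exists.mp hv
    obtain ⟨w', rfl⟩ := Sym2.mem_iff_exists.mp hv'
    have h1 : (HH n).Adj v w := he
    have h2 : (HH n).Adj v w' := he'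
    rw [(HH_matching (Set.mem_univ v)).unique h1 h2]
  · intro e he v hv
    obtain ⟨w, rfl⟩ := Sym2.mem_iff_exists.mp hv
    obtain ⟨h1, h2⟩ : v.1 = w.1 ∧ v.2 ≠ w.2 := he
    rcases v with ⟨v, s⟩
    rcases w with ⟨w, t⟩
    change v = w at h1
    subst h1
    rw [gg_pendant]
    intro heq
    have heq' : mc v = fc (v, s) := congrArg Fin.val heq
    rcases v with a | j <;> cases s <;> simp only [fc, mc] at heq' <;>
      first
      | omega
      | (split_ifs at heq' <;> omega)

open Finset in
theorem no_ext (hn : 6 ≤ n) : ¬ Extends (GG n) (HH n) (ff n) (gg n) := by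
  rintro ⟨f, g, ⟨_, hee, hve⟩, hf, hg⟩
  -- the colour of a core edge
  let E : (Fin (n + 1) ⊕ Fin n) → (Fin (n + 1) ⊕ Fin n) → Sym2 (VV n) :=
    fun u v => s((u, false), (v, false))
  have hEcomm : ∀ u v, E u v = E v u := fun u v => Sym2.eq_swap
  have hfv : ∀ p : VV n, f p = ff n p := fun p => hf p (Set.mem_univ p)
  have hgp : ∀ u : Fin (n + 1) ⊕ Fin n, g s((u, false), (u, true)) = mm u := by
    intro u
    rw [hg s((u, false), (u, true)) ⟨rfl, Bool.false_ne_true⟩, gg_pendant]
  have hEmem : ∀ u v, coreAdj u v → E u v ∈ (⊤ : (GG n).Subgraph).edgeSet := by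
    intro u v h
    exact Or.inl ⟨rfl, rfl, h⟩
  have hPmem : ∀ u, s(((u, false) : VV n), (u, true)) ∈ (⊤ : (GG n).Subgraph).edgeSet := by
    intro u
    exact Or.inr ⟨rfl, Bool.false_ne_true⟩
  have hleft : ∀ u v, coreAdj u v → (g (E u v)).val ≠ fc (u, false) ∧ (g (E u v)).val ≠ mc u := by
    intro u v h
    constructor
    · intro heq
      refine hve (E u v) (hEmem u v h) (u, false) (Sym2.mem_mk_left _ _) ?_
      rw [hfv]
      exact Fin.ext heq
    · intro heq
      refine hee (E u v) (hEmem u v h) s((u, false), (u, true)) (hPmem u) ?_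
        ⟨(u, false), Sym2.mem_mk_left _ _, Sym2.mem_mk_left _ _⟩ ?_
      · intro h'
        have : ((u, true) : VV n) ∈ E u v := by
          rw [h']
          exact Sym2.mem_mk_right _ _
        rcases Sym2.mem_iff.mp this with h2 | h2
        · exact absurd (congrArg Prod.snd h2).symm Bool.false_ne_true
        · exact absurd (congrArg Prod.snd h2).symm Bool.false_ne_true
      · rw [hgp]
        exact Fin.ext heq
  have hright : ∀ u v, coreAdj u v → (g (E u v)).val ≠ fc (v, false) ∧ (g (E u v)).val ≠ mc v := by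
    intro u v h
    rw [hEcomm]
    exact hleft v u (coreAdj_symm h)
  have hsame : ∀ u v w, coreAdj u v → coreAdj u w → g (E u v) = g (E u w) → v = w := by
    intro u v w h1 h2 h3
    by_contra hne
    refine hee (E u v) (hEmem u v h1) (E u w) (hEmem u w h2) ?_
      ⟨(u, false), Sym2.mem_mk_left _ _, Sym2.mem_mk_left _ _⟩ h3
    intro h'
    have h4 : ((v, false) : VV n) = (w, false) := (Sym2.congr_right).mp h'
    exact hne (congrArg Prod.fst h4)
  -- edges between the two sides have large colours
  have hbig : ∀ (a : Fin (n + 1)) (j : Fin n), miss j ≠ a.val →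
      4 ≤ (g (E (.inr j) (.inl a))).val := by
    intro a j h
    have h1 := hleft (.inr j) (.inl a) h
    have h2 := hright (.inr j) (.inl a) h
    simp only [fc, mc] at h1 h2
    split_ifs at h2 <;> omega
  have hmlt : ∀ j : Fin n, miss j < n + 1 := by
    intro j
    unfold miss
    have := j.2
    split_ifs <;> omega
  -- each large colour appears at each vertex of the small side
  have hsurj : ∀ (c : Fin (n + 4)), 4 ≤ c.val → ∀ j : Fin n, ∃ a : Fin (n + 1), miss j ≠ a.val ∧
      g (E (.inr j) (.inl a)) = c := by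
    intro c hc j
    let S : Finset (Fin (n + 1)) := univ.erase ⟨miss j, hmlt j⟩
    let T : Finset (Fin (n + 4)) := univ.filter (fun c => 4 ≤ c.val)
    have hT : T.card = n := by
      have : T = (Finset.univ : Finset (Fin n)).map ⟨fun i => Fin.natAdd 4 i |>.cast (by omega),
          fun i i' h => by
            have := congrArg Fin.val h
            simp at this
            exact Fin.ext this⟩ := by
        ext x
        simp only [T, Finset.mem_filter, Finset.mem_univ, true_and, Finset.mem_map]
        constructor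
        · intro hx
          refine ⟨⟨x.val - 4, by omega⟩, ?_⟩
          apply Fin.ext
          simp
          omega
        · rintro ⟨i, rfl⟩
          simp
      rw [this, Finset.card_map, Finset.card_univ, Fintype.card_fin]
    have hS : S.card = n := by
      rw [Finset.card_erase_of_mem (Finset.mem_univ _), Finset.card_univ, Fintype.card_fin]
      rfl
    have hmem : ∀ a, a ∈ S ↔ miss j ≠ a.val := by
      intro a
      simp only [S, Finset.mem_erase, Finset.mem_univ, and_true]
      constructor
      · intro h h'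
        exact h (Fin.ext h'.symm)
      · intro h h'
        exact h (congrArg Fin.val h').symm
    have hmaps : Set.MapsTo (fun a => g (E (.inr j) (.inl a))) (S : Set (Fin (n + 1)))
        (T : Set (Fin (n + 4))) := by
      intro a ha
      have ha' := (hmem a).mp (Finset.mem_coe.mp ha)
      exact Finset.mem_coe.mpr (Finset.mem_filter.mpr ⟨Finset.mem_univ _, hbig a j ha'⟩)
    have hinj : Set.InjOn (fun a => g (E (.inr j) (.inl a))) (S : Set (Fin (n + 1))) := by
      intro a ha b hb hab
      have ha' := (hmem a).mp (Finset.mem_coe.mp ha)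
      have hb' := (hmem b).mp (Finset.mem_coe.mp hb)
      exact Sum.inl.inj (hsame (.inr j) (.inl a) (.inl b) ha' hb' hab)
    have hs := Finset.surjOn_of_injOn_of_card_le _ hmaps hinj (by rw [hT, hS])
    obtain ⟨a, ha, hac⟩ := hs (Finset.mem_coe.mpr (Finset.mem_filter.mpr
      ⟨Finset.mem_univ c, hc⟩))
    exact ⟨a, (hmem a).mp (Finset.mem_coe.mp ha), hac⟩
  -- star edges have small colours
  have hstar : ∀ b : Fin (n + 1), 1 ≤ b.val → b.val ≤ 3 →
      (g (E (.inl 0) (.inl b))).val = 2 ∨ (g (E (.inl 0) (.inl b))).val = 3 := by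
    intro b hb1 hb3
    have hadj : coreAdj (.inl (0 : Fin (n + 1)) : Fin (n + 1) ⊕ Fin n) (.inl b) :=
      Or.inl ⟨rfl, hb1, hb3⟩
    have h1 := hleft _ _ hadj
    by_contra hcon
    push Not at hcon
    have h4 : 4 ≤ (g (E (.inl 0) (.inl b))).val := by
      have h00 : (0 : Fin (n + 1)).val = 0 := rfl
      simp only [fc, mc, h00, if_true] at h1
      omega
    choose a ha hac using hsurj _ h4
    have hainj : Function.Injective a := by
      intro j j' h
      have h5 : g (E (.inl (a j)) (.inr j)) = g (E (.inl (a j)) (.inr j')) := by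
        rw [hEcomm (.inl (a j)) (.inr j), hEcomm (.inl (a j)) (.inr j'), hac j]
        rw [h, hac j']
      have h6 : miss j' ≠ (a j).val := by
        rw [h]
        exact ha j'
      exact Sum.inr.inj (hsame (.inl (a j)) (.inr j) (.inr j') (ha j) h6 h5)
    have ha0 : ∀ j, a j ≠ 0 := by
      intro j h
      have h5 : g (E (.inl 0) (.inr j)) = g (E (.inl 0) (.inl b)) := by
        rw [hEcomm (.inl 0) (.inr j), ← hac j, h]
      have h6 := ha j
      rw [h] at h6
      exact absurd (hsame (.inl 0) (.inr j) (.inl b) h6 hadj h5) (by simp)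
    have hab : ∀ j, a j ≠ b := by
      intro j h
      have h5 : g (E (.inl b) (.inr j)) = g (E (.inl b) (.inl 0)) := by
        rw [hEcomm (.inl b) (.inr j), hEcomm (.inl b) (.inl 0), ← hac j, h]
      have h6 := ha j
      rw [h] at h6
      exact absurd (hsame (.inl b) (.inr j) (.inl 0) h6 (coreAdj_symm hadj) h5) (by simp)
    have hb0 : b ≠ 0 := by
      intro h
      rw [h] at hb1
      simp at hb1
    have hcard := Finset.card_le_card_of_injOn (s := (Finset.univ : Finset (Fin n)))
      (t := ((Finset.univ : Finset (Fin (n + 1))).erase 0).erase b) a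
      (fun j _ => by
        simp only [Finset.coe_erase, Finset.coe_univ, Set.mem_sdiff, Set.mem_univ,
          Set.mem_singleton_iff, true_and]
        exact ⟨ha0 j, hab j⟩)
      (fun _ _ _ _ h => hainj h)
    rw [Finset.card_erase_of_mem (Finset.mem_erase.mpr ⟨hb0, Finset.mem_univ _⟩),
      Finset.card_erase_of_mem (Finset.mem_univ _), Finset.card_univ, Finset.card_univ,
      Fintype.card_fin, Fintype.card_fin] at hcard
    omega
  -- pigeonhole on the three star edges
  have hadj : ∀ b : Fin (n + 1), 1 ≤ b.val → b.val ≤ 3 →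
      coreAdj (.inl (0 : Fin (n + 1)) : Fin (n + 1) ⊕ Fin n) (.inl b) :=
    fun b h1 h3 => Or.inl ⟨rfl, h1, h3⟩
  have hne : ∀ b b' : Fin (n + 1), 1 ≤ b.val → b.val ≤ 3 → 1 ≤ b'.val → b'.val ≤ 3 →
      b.val ≠ b'.val → (g (E (.inl 0) (.inl b))).val ≠ (g (E (.inl 0) (.inl b'))).val := by
    intro b b' h1 h2 h3 h4 h5 h6
    have := hsame (.inl 0) (.inl b) (.inl b') (hadj b h1 h2) (hadj b' h3 h4) (Fin.ext h6)
    exact h5 (congrArg Fin.val (Sum.inl.inj this))
  let b1 : Fin (n + 1) := ⟨1, by omega⟩
  let b2 : Fin (n + 1) := ⟨2, by omega⟩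
  let b3 : Fin (n + 1) := ⟨3, by omega⟩
  have v1 : b1.val = 1 := rfl
  have v2 : b2.val = 2 := rfl
  have v3 : b3.val = 3 := rfl
  have s1 := hstar b1 (by omega) (by omega)
  have s2 := hstar b2 (by omega) (by omega)
  have s3 := hstar b3 (by omega) (by omega)
  have n12 := hne b1 b2 (by omega) (by omega) (by omega) (by omega) (by omega)
  have n13 := hne b1 b3 (by omega) (by omega) (by omega) (by omega) (by omega)
  have n23 := hne b2 b3 (by omega) (by omega) (by omega) (by omega) (by omega)
  omega

end R921.TC
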